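import Pool.Agent.H73.TS.TargetsB

/-! PAQ: coordinates adapted to a parallelotope, width of the inscribed ellipsoid. -/

open MeasureTheory Set Metric Filter
open scoped ENNReal Topology

namespace Pool.Agent.H31.TS

open Pool.Agent.H73.TS

theorem paq (hPAR : T_PAR) : T_PAQ := by
  intro d w v hw
  obtain ⟨L, hL1, hL2, hL3⟩ := hPAR d w v hw
  refine ⟨L, hL1, hL2, fun g => ?_⟩
  set gl : E d →L[ℝ] ℝ := g.comp (L.symm : E d →L[ℝ] E d) with hgl
  set h : E d := (InnerProductSpace.toDual ℝ (E d)).symm gl with hh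
  have hin : ∀ x, inner ℝ h x = gl x := fun x => by
    rw [hh, InnerProductSpace.toDual_symm_apply]
  have hno : ‖h‖ = ‖gl‖ := by rw [hh, LinearIsometryEquiv.norm_map]
  by_cases h0 : h = 0
  · refine ⟨_, hL3 0 (by norm_num), _, hL3 0 (by norm_num), ?_⟩
    rw [← hno, h0, norm_zero, sub_self]
  · have hpos : 0 < ‖h‖ := norm_pos_iff.2 h0
    have hb : ‖(1 / (2 * ‖h‖)) • h‖ = 1 / 2 := by
      rw [norm_smul, Real.norm_of_nonneg (by positivity)]
      field_simp
    have hb2 : ‖-((1 / (2 * ‖h‖)) • h)‖ = 1 / 2 := by rw [norm_neg, hb]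
    refine ⟨_, hL3 _ hb.le, _, hL3 _ hb2.le, ?_⟩
    have e1 : ∀ b : E d, g (L.symm b) = gl b := fun b => rfl
    have e2 : gl ((1 / (2 * ‖h‖)) • h) = ‖h‖ / 2 := by
      rw [map_smul, ← hin, real_inner_self_eq_norm_sq, smul_eq_mul]
      field_simp
    have e3 : ∀ a b : E d, g (a + L.symm b) = g a + gl b := fun a b => by
      rw [map_add, e1]
    rw [e3, e3, map_neg, e2, ← hno]
    apply le_of_eq
    ring

end Pool.Agent.H31.TS
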