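import Pool.Agent.H73.TS.Targets

/-! SLAB: the slab inequality for the Wills functional. -/

open MeasureTheory Set Metric Filter
open scoped ENNReal Topology

namespace Pool.Agent.H31.TS

open Pool.Agent.H73.TS

/-- Gaussian -/
noncomputable def ga (s : ℝ) : ℝ := Real.exp (-(Real.pi * s ^ 2))

theorem ga_eq (s : ℝ) : ga s = Real.exp (-Real.pi * s ^ 2) := by
  unfold ga; rw [neg_mul]

theorem ga_int : Integrable ga := by
  have h := integrable_exp_neg_mul_sq Real.pi_pos
  have e : ga = fun x => Real.exp (-Real.pi * x ^ 2) := funext ga_eq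
  rw [e]
  exact h

theorem ga_neg (s : ℝ) : ga (-s) = ga s := by
  unfold ga; rw [neg_sq]

theorem ga_Ioi0 : ∫ s in Ioi (0 : ℝ), ga s = 1 / 2 := by
  have h := integral_gaussian_Ioi Real.pi
  have e : ga = fun x => Real.exp (-Real.pi * x ^ 2) := funext ga_eq
  rw [e, h, div_self Real.pi_pos.ne', Real.sqrt_one]

theorem ga_Ioi (c : ℝ) : ∫ s in Ioi (-c), ga s = 1 / 2 + er c := by
  have h := intervalIntegral.integral_interval_add_Ioi (a := -c) (b := 0)
    (ga_int.integrableOn (s := Ioi (-c))) (ga_int.integrableOn (s := Ioi 0))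
  rw [ga_Ioi0] at h
  have h2 := intervalIntegral.integral_comp_neg (a := 0) (b := c) ga
  have h3 : (∫ x in (0 : ℝ)..c, ga (-x)) = er c := by
    unfold er
    refine intervalIntegral.integral_congr fun x _ => ?_
    exact ga_neg x
  rw [h3, neg_zero] at h2
  rw [← h, ← h2, add_comm]

theorem ga_all : ∫ s, ga s = 1 := by
  have h := integral_gaussian Real.pi
  have e : ga = fun x => Real.exp (-Real.pi * x ^ 2) := funext ga_eq
  rw [e, h, div_self Real.pi_pos.ne', Real.sqrt_one]

theorem ga_Iic (c : ℝ) : ∫ s in Iic (-c), ga s = 1 / 2 - er c := by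
  have h := intervalIntegral.integral_Iic_add_Ioi (b := -c)
    (ga_int.integrableOn (s := Iic (-c))) (ga_int.integrableOn (s := Ioi (-c)))
  rw [ga_Ioi, ga_all] at h
  linarith

theorem ga_Ioi1 (c : ℝ) : ∫ s in Ioi (1 - c), ga (s - 1) = 1 / 2 + er c := by
  have h := (measurePreserving_sub_right (volume : Measure ℝ) 1).setIntegral_preimage_emb
    (measurableEmbedding_subRight 1) ga (Ioi (-c))
  rw [ga_Ioi] at h
  rw [← h]
  congr 2
  ext x
  simp only [mem_Ioi, mem_preimage]
  constructor <;> intro h <;> linarith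

/-- the integrand -/
noncomputable def FF {n : ℕ} (P : Set (E (n + 1))) (s : ℝ) (y : E n) : ℝ :=
  Real.exp (-(Real.pi * infDist (cons s y) P ^ 2))

theorem dist_tl {n : ℕ} (s : ℝ) (y : E n) (p : E (n + 1)) : dist y (tl p) ≤ dist (cons s y) p := by
  have h := dist_cons_sq s (p 0) y (tl p)
  rw [cons_tl] at h
  have h2 : dist y (tl p) ^ 2 ≤ dist (cons s y) p ^ 2 := by
    rw [h]; nlinarith [sq_nonneg (s - p 0)]
  exact abs_le_of_sq_le_sq' h2 dist_nonneg |>.2

theorem FF_nonneg {n : ℕ} (P : Set (E (n + 1))) (s : ℝ) (y : E n) : 0 ≤ FF P s y :=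
  (Real.exp_pos _).le

theorem FF_cont {n : ℕ} (P : Set (E (n + 1))) (s : ℝ) : Continuous (FF P s) := by
  unfold FF
  have h1 : Continuous fun y : E n => cons s y :=
    continuous_cons.comp (continuous_const.prodMk continuous_id)
  have h2 : Continuous fun y : E n => infDist (cons s y) P := (continuous_infDist_pt P).comp h1
  exact Real.continuous_exp.comp ((continuous_const.mul (h2.pow 2)).neg)

theorem FF_int {n : ℕ} (hINT : T_INT) (P : Set (E (n + 1))) (hP : Bornology.IsBounded P)
    (hne : P.Nonempty) (s : ℝ) : Integrable (FF P s) := by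
  have hA : Bornology.IsBounded (tl '' P) := by
    obtain ⟨R, hR⟩ := hP.exists_norm_le
    refine (isBounded_iff_forall_norm_le).2 ⟨R, ?_⟩
    rintro _ ⟨p, hp, rfl⟩
    have h1 := norm_cons_sq (p 0) (tl p)
    rw [cons_tl] at h1
    have h2 : ‖tl p‖ ^ 2 ≤ ‖p‖ ^ 2 := by rw [h1]; nlinarith [sq_nonneg (p 0)]
    exact (abs_le_of_sq_le_sq' h2 (norm_nonneg _)).2.trans (hR p hp)
  have h1 := (hINT n (tl '' P) (hne.image _) hA).1
  refine h1.mono' (FF_cont P s).aestronglyMeasurable (Eventually.of_forall fun y => ?_)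
  rw [Real.norm_of_nonneg (FF_nonneg P s y)]
  unfold FF
  have h2 : infDist y (tl '' P) ≤ infDist (cons s y) P := by
    refine (le_infDist hne).2 fun p hp => ?_
    exact (infDist_le_dist_of_mem (mem_image_of_mem _ hp)).trans (dist_tl s y p)
  have h3 : infDist y (tl '' P) ^ 2 ≤ infDist (cons s y) P ^ 2 :=
    pow_le_pow_left₀ infDist_nonneg h2 2
  exact Real.exp_le_exp.2 (neg_le_neg (mul_le_mul_of_nonneg_left h3 Real.pi_pos.le))

theorem sec_compact {n : ℕ} (P : Set (E (n + 1))) (hP : IsCompact P) (t : ℝ) :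
    IsCompact (sec P t) := by
  have h1 : Continuous fun y : E n => cons t y :=
    continuous_cons.comp (continuous_const.prodMk continuous_id)
  have h2 : IsClosed (sec P t) := hP.isClosed.preimage h1
  refine isCompact_of_isClosed_isBounded h2 ?_
  obtain ⟨R, hR⟩ := hP.isBounded.exists_norm_le
  refine (isBounded_iff_forall_norm_le).2 ⟨R, fun y hy => ?_⟩
  have h3 := norm_cons_sq t y
  have h4 : ‖y‖ ^ 2 ≤ ‖cons t y‖ ^ 2 := by rw [h3]; nlinarith [sq_nonneg t]
  exact (abs_le_of_sq_le_sq' h4 (norm_nonneg _)).2.trans (hR _ hy)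

theorem FF_low {n : ℕ} (hINT : T_INT) (P : Set (E (n + 1))) (hP : IsCompact P) (t : ℝ)
    (hne : (sec P t).Nonempty) (s : ℝ) : ga (s - t) * W (sec P t) ≤ ∫ y, FF P s y := by
  have hc := sec_compact P hP t
  have hPne : P.Nonempty := ⟨_, hne.choose_spec⟩
  have hI := (hINT n (sec P t) hne hc.isBounded).1
  unfold W
  rw [← integral_const_mul]
  refine integral_mono (hI.const_mul _) (FF_int hINT P hP.isBounded hPne s) fun y => ?_
  show ga (s - t) * Real.exp (-(Real.pi * infDist y (sec P t) ^ 2)) ≤ FF P s y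
  obtain ⟨a, ha, ha2⟩ := hc.exists_infDist_eq_dist hne y
  unfold ga FF
  rw [← Real.exp_add]
  refine Real.exp_le_exp.2 ?_
  have h1 : infDist (cons s y) P ≤ dist (cons s y) (cons t a) := infDist_le_dist_of_mem ha
  have h2 : infDist (cons s y) P ^ 2 ≤ (s - t) ^ 2 + infDist y (sec P t) ^ 2 := by
    rw [ha2, ← dist_cons_sq]
    exact pow_le_pow_left₀ infDist_nonneg h1 2
  have h3 := mul_le_mul_of_nonneg_left h2 Real.pi_pos.le
  linarith

theorem slab (hFUB : T_FUB) (hINT : T_INT) : T_SLAB := by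
  intro n P hP hsec c g hg hgW
  have hPne : P.Nonempty := ⟨_, (hsec 0 ⟨le_rfl, zero_le_one⟩).choose_spec⟩
  obtain ⟨e, he, hmp⟩ := hFUB n
  have hI := (hINT (n + 1) P hPne hP.isBounded).1
  -- the integral as an iterated integral
  have hFI : Integrable (fun p : ℝ × E n => FF P p.1 p.2) := by
    have h1 := (hmp.integrable_comp_emb e.measurableEmbedding
      (g := fun x : E (n + 1) => Real.exp (-(Real.pi * infDist x P ^ 2)))).2 hI
    refine h1.congr (Eventually.of_forall fun p => ?_)
    show Real.exp (-(Real.pi * infDist (e p) P ^ 2)) = _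
    rw [he]
    rfl
  have hW : W P = ∫ s, ∫ y, FF P s y := by
    have h1 := hmp.integral_comp e.measurableEmbedding
      (fun x : E (n + 1) => Real.exp (-(Real.pi * infDist x P ^ 2)))
    have h2 : (∫ p : ℝ × E n, Real.exp (-(Real.pi * infDist (e p) P ^ 2))) =
        ∫ p : ℝ × E n, FF P p.1 p.2 := by
      refine integral_congr_ae (Eventually.of_forall fun p => ?_)
      show Real.exp (-(Real.pi * infDist (e p) P ^ 2)) = _
      rw [he]
      rfl
    unfold W
    rw [← h1, h2]
    exact integral_prod (fun p : ℝ × E n => FF P p.1 p.2) hFI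
  have hJ : Integrable (fun s : ℝ => ∫ y, FF P s y) := by
    exact Integrable.integral_prod_left hFI
  set J : ℝ → ℝ := fun s => ∫ y, FF P s y with hJdef
  have hs1 := intervalIntegral.integral_Iic_add_Ioi (b := -c)
    (hJ.integrableOn (s := Iic (-c))) (hJ.integrableOn (s := Ioi (-c)))
  have hs2 := intervalIntegral.integral_interval_add_Ioi (a := -c) (b := 1 - c)
    (hJ.integrableOn (s := Ioi (-c))) (hJ.integrableOn (s := Ioi (1 - c)))
  -- first part
  have hp1 : (1 / 2 - er c) * W (sec P 0) ≤ ∫ s in Iic (-c), J s := by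
    rw [← ga_Iic, ← integral_mul_const]
    refine setIntegral_mono_on (ga_int.mul_const _).integrableOn hJ.integrableOn
      measurableSet_Iic fun s _ => ?_
    have h1 := FF_low hINT P hP 0 (hsec 0 ⟨le_rfl, zero_le_one⟩) s
    rwa [sub_zero] at h1
  -- third part
  have hp3 : (1 / 2 + er c) * W (sec P 1) ≤ ∫ s in Ioi (1 - c), J s := by
    rw [← ga_Ioi1, ← integral_mul_const]
    refine setIntegral_mono_on ((ga_int.comp_sub_right 1).mul_const _).integrableOn
      hJ.integrableOn measurableSet_Ioi fun s _ => ?_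
    exact FF_low hINT P hP 1 (hsec 1 ⟨zero_le_one, le_rfl⟩) s
  -- middle part
  have hp2 : Real.exp (-(Real.pi * c ^ 2)) * (∫ t in (0 : ℝ)..1, g t) ≤
      ∫ s in (-c)..(1 - c), J s := by
    have h1 := intervalIntegral.integral_comp_add_right (a := -c) (b := 1 - c) g c
    rw [neg_add_cancel, sub_add_cancel] at h1
    rw [← h1, ← intervalIntegral.integral_const_mul]
    refine intervalIntegral.integral_mono_on (by linarith) ?_ hJ.intervalIntegrable fun s hs => ?_
    · refine ContinuousOn.intervalIntegrable ?_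
      rw [uIcc_of_le (by linarith)]
      refine continuousOn_const.mul (hg.comp (by fun_prop) fun s hs => ?_)
      exact ⟨by linarith [hs.1], by linarith [hs.2]⟩
    · have ht : s + c ∈ Icc (0 : ℝ) 1 := ⟨by linarith [hs.1], by linarith [hs.2]⟩
      have h2 := FF_low hINT P hP (s + c) (hsec _ ht) s
      have h3 : ga (s - (s + c)) = Real.exp (-(Real.pi * c ^ 2)) := by
        rw [show s - (s + c) = -c by ring, ga_neg]
        rfl
      rw [h3] at h2
      exact (mul_le_mul_of_nonneg_left (hgW _ ht) (Real.exp_pos _).le).trans h2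
  have hW2 : W P = ∫ s, J s := hW
  rw [hW2, ← hs1, ← hs2]
  linarith

end Pool.Agent.H31.TS
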